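import Mathlib
import Pool.Agent.H422.RS.AnyB

/-!
# Recurrence sets of a rational function and a Möbius transformation

Let `f`, `g`, `c` be rational functions over `ℂ`, or over any algebraically closed field `Ω` of characteristic
zero, `f` of degree at least `2`, `g` of degree `1` and `c` arbitrary (constants allowed). Then the set of the
`n ≥ 0` for which some point `x` of the projective line satisfies `c(x) = f^n(x) = g^n(x)` is a finite union of
arithmetic progressions. Since this set is symmetric in `f` and `g` the same is true if `f` is the Möbius
transformation. If moreover `g` has infinite order then for all large `n` every solution `x` is a fixed point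
of `g` with `c(x) = x`.

So question Q1 of the problem has a positive answer whenever one of the two functions has degree `1`. (The
known results assume that both have degree at least `2`.) There is no condition on `f` and `c`, for example
`f` may be exceptional.

## Proof

There are forms `p_0`, `p_1` such that `c(x) = g^n(x)` is the equation `a_n p_0(x) = p_1(x)` with `a_n = λ^n`,
the quotient of the eigenvalues of `g`, or `a_n = n`.

Suppose first that everything is defined over a number field `K`. Let `x` be a solution of
`c(x) = f^n(x) = g^n(x)`. From `c(x) = f^n(x)` it follows that the height of `x` is bounded by a number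
which does not depend on `n` (`core`), because the height of `f^n(x)` is about `(deg f)^n` times that of `x`.
The degree of `x` over `K` is at most `deg c + 1`. If `p_0(x) ≠ 0` then the height of `a_n = p_1(x) / p_0(x)`
is bounded as well. So this is possible for only finitely many `n`, unless `λ` is a root of unity
(`bounded`). For the other `n` we have `p_0(x) = p_1(x) = 0`, which is satisfied by finitely many `x`, the
fixed points `x` of `g` with `c(x) = x`, and for each `x` the set of the `n` with `c(x) = f^n(x)` is eventually
periodic. If `λ` is a root of unity then `g` has finite order `k` and in each residue class modulo `k`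
either `c = g^n` as functions and there is always a solution, or there are only finitely many `x` with
`c(x) = g^n(x)`.

In general the coefficients are in a finitely generated ring, which we map to a number field `K` such that
`λ` does not become a root of unity (`spec_data`, by the specialization theorem for wandering points, applied
to `λ` and the map `z ^ 2`) and certificates of Hilbert's Nullstellensatz for `f`, `c` and the coprime parts
of `p_0`, `p_1` survive. By a valuation ring of `Ω` which dominates the kernel (`residue_data`) each solution
`x` over `Ω` gives a solution over an extension of `K`, to which the theorem over `K` applies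
(`bounded_any`).
-/

set_option autoImplicit false

open MvPolynomial

namespace Pool.Agent.Results.MP_2fa0cb_nt.MoebiusCase

/-- A rational function of degree `d` over the algebraically closed field `Ω`: two forms of degree `d` without
common zero but `0`. For `d = 0` these are the constants. -/
structure RatMap (Ω : Type) [Field Ω] (d : ℕ) where
  F : Fin 2 → MvPolynomial (Fin 2) Ω
  homogeneous : ∀ i, (F i).IsHomogeneous d
  regular : ∀ x : Fin 2 → Ω, (∀ i, eval x (F i) = 0) → x = 0

/-- The rational function on homogeneous coordinates. -/
noncomputable def RatMap.map {Ω : Type} [Field Ω] {d : ℕ} (g : RatMap Ω d) (x : Fin 2 → Ω) : Fin 2 → Ω :=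
  fun i => eval x (g.F i)

/-- The nonzero vectors `u` and `v` are homogeneous coordinates of the same point of `P^1`. -/
def SamePoint {Ω : Type} [Field Ω] (u v : Fin 2 → Ω) : Prop := u 0 * v 1 = u 1 * v 0

/-- The set of the `n` for which there is a point `x` of `P^1(Ω)` with `c(x) = f^n(x) = g^n(x)`. -/
def recurrenceSet {Ω : Type} [Field Ω] {d e D : ℕ} (f : RatMap Ω d) (g : RatMap Ω e) (c : RatMap Ω D) :
    Set ℕ :=
  {n | ∃ x : Fin 2 → Ω, x ≠ 0 ∧ SamePoint (c.map x) (f.map^[n] x) ∧ SamePoint (c.map x) (g.map^[n] x)}

/-- `R` is a finite union of arithmetic progressions `{a + b j : j ≥ 0}`, where `b = 0` is allowed. -/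
def FiniteUnionOfProgressions (R : Set ℕ) : Prop :=
  ∃ T : Finset (ℕ × ℕ), R = ⋃ p ∈ T, Set.range fun j : ℕ => p.1 + p.2 * j

lemma map_eq {Ω : Type} [Field Ω] {d : ℕ} (g : RatMap Ω d) :
    g.map = Pool.Agent.H422.RS.ev (K := Ω) (L := Ω) g.F := by
  funext x i
  rw [RatMap.map, Pool.Agent.H422.RS.ev, aeval_eq_eval]

lemma ev_ne {Ω : Type} [Field Ω] {d : ℕ} (g : RatMap Ω d) (x : Fin 2 → Ω) (hx : x ≠ 0) :
    Pool.Agent.H422.RS.ev (K := Ω) (L := Ω) g.F x ≠ 0 := by
  rw [← map_eq]
  intro h
  exact hx (g.regular x fun i => congrFun h i)

/-- **Recurrence sets of a rational function and a Möbius transformation are semi-linear.** -/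
theorem result (Ω : Type) [Field Ω] [CharZero Ω] [IsAlgClosed Ω] (d D : ℕ) (hd : 2 ≤ d) (f : RatMap Ω d)
    (g : RatMap Ω 1) (c : RatMap Ω D) :
    FiniteUnionOfProgressions (recurrenceSet f g c) ∧
    ((∀ k : ℕ, 0 < k → ∃ x : Fin 2 → Ω, ¬ SamePoint (g.map^[k] x) x) →
      ∃ N : ℕ, ∀ n, N ≤ n → ∀ x : Fin 2 → Ω, x ≠ 0 → SamePoint (c.map x) (f.map^[n] x) →
        SamePoint (c.map x) (g.map^[n] x) → SamePoint (g.map x) x ∧ SamePoint (c.map x) x) := by
  constructor
  · apply Pool.Agent.H422.SK.EvPer.union
    rw [map_eq f, map_eq g, map_eq c]
    exact Pool.Agent.H422.RS.main3A hd f.homogeneous c.homogeneous g.homogeneous (ev_ne f) (ev_ne c)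
      (ev_ne g)
  · intro h
    rw [map_eq g] at h
    rw [map_eq f, map_eq g, map_eq c]
    exact Pool.Agent.H422.RS.large hd f.homogeneous c.homogeneous g.homogeneous (ev_ne f) (ev_ne c)
      (ev_ne g) h

end Pool.Agent.Results.MP_2fa0cb_nt.MoebiusCase
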